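import Mathlib

set_option autoImplicit false

/-! Densities of unions of cosets of subgroups of finite index. -/

namespace Q21.Dens

variable {Γ Γ' : Type} [CommGroup Γ] [CommGroup Γ']

/-- `F` is a union of cosets of `K`, which has finite index, and has density `r`. -/
structure DensW (K : Subgroup Γ) (F : Set Γ) (r : ℝ) : Prop where
  ind : K.index ≠ 0
  per : ∀ g ∈ F, ∀ k ∈ K, g * k ∈ F
  card : (Set.ncard ((QuotientGroup.mk : Γ → Γ ⧸ K) '' F) : ℝ) = r * K.index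

theorem mem_image_mk {K : Subgroup Γ} {F : Set Γ} (per : ∀ g ∈ F, ∀ k ∈ K, g * k ∈ F) (g : Γ) :
    (QuotientGroup.mk g : Γ ⧸ K) ∈ (QuotientGroup.mk : Γ → Γ ⧸ K) '' F ↔ g ∈ F := by
  constructor
  · rintro ⟨g', hg', h⟩
    rw [QuotientGroup.eq] at h
    have := per g' hg' _ h
    rwa [mul_inv_cancel_left] at this
  · exact fun h => ⟨g, h, rfl⟩

theorem DensW.refine {K K' : Subgroup Γ} {F : Set Γ} {r : ℝ} (h : DensW K F r) (hle : K' ≤ K)
    (hi : K'.index ≠ 0) : DensW K' F r := by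
  have hper : ∀ g ∈ F, ∀ k ∈ K', g * k ∈ F := fun g hg k hk => h.per g hg k (hle hk)
  refine ⟨hi, hper, ?_⟩
  let e := Subgroup.quotientEquivProdOfLE hle
  have h1 : ((QuotientGroup.mk : Γ → Γ ⧸ K') '' F) =
      e ⁻¹' (((QuotientGroup.mk : Γ → Γ ⧸ K) '' F) ×ˢ Set.univ) := by
    ext q
    obtain ⟨g, rfl⟩ := QuotientGroup.mk_surjective q
    rw [mem_image_mk hper]
    rw [Set.mem_preimage, Set.mem_prod]
    have h2 : (e (QuotientGroup.mk g)).1 = QuotientGroup.mk g := rfl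
    rw [h2, mem_image_mk h.per]
    simp
  have h3 : Set.ncard ((QuotientGroup.mk : Γ → Γ ⧸ K') '' F) =
      Set.ncard ((QuotientGroup.mk : Γ → Γ ⧸ K) '' F) * K'.relIndex K := by
    rw [h1, ← Set.ncard_image_of_injective _ e.injective, Set.image_preimage_eq _ e.surjective,
      Set.ncard_prod, Set.ncard_univ]
    rfl
  rw [h3, Nat.cast_mul, h.card, ← Subgroup.relIndex_mul_index hle, Nat.cast_mul]
  ring

theorem DensW.union {K : Subgroup Γ} {F F' : Set Γ} {r r' : ℝ} (h : DensW K F r)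
    (h' : DensW K F' r') (hd : Disjoint F F') : DensW K (F ∪ F') (r + r') := by
  refine ⟨h.ind, ?_, ?_⟩
  · rintro g (hg | hg) k hk
    · exact Or.inl (h.per g hg k hk)
    · exact Or.inr (h'.per g hg k hk)
  · have hfin : Finite (Γ ⧸ K) := by
      have : K.FiniteIndex := ⟨h.ind⟩
      infer_instance
    rw [Set.image_union, Set.ncard_union_eq, Nat.cast_add, h.card, h'.card]
    · ring
    · rw [Set.disjoint_left]
      rintro q ⟨g, hg, rfl⟩ hq
      rw [mem_image_mk h'.per] at hq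
      exact Set.disjoint_left.1 hd hg hq

theorem DensW.compl {K : Subgroup Γ} {F : Set Γ} {r : ℝ} (h : DensW K F r) :
    DensW K Fᶜ (1 - r) := by
  have hper : ∀ g ∈ Fᶜ, ∀ k ∈ K, g * k ∈ Fᶜ := by
    intro g hg k hk hgk
    apply hg
    have := h.per _ hgk k⁻¹ (K.inv_mem hk)
    rwa [mul_inv_cancel_right] at this
  refine ⟨h.ind, hper, ?_⟩
  have hfin : Finite (Γ ⧸ K) := by
    have : K.FiniteIndex := ⟨h.ind⟩
    infer_instance
  have h1 : ((QuotientGroup.mk : Γ → Γ ⧸ K) '' Fᶜ) = ((QuotientGroup.mk : Γ → Γ ⧸ K) '' F)ᶜ := by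
    ext q
    obtain ⟨g, rfl⟩ := QuotientGroup.mk_surjective q
    rw [Set.mem_compl_iff, mem_image_mk hper, mem_image_mk h.per]
    rfl
  have h2 := Set.ncard_add_ncard_compl ((QuotientGroup.mk : Γ → Γ ⧸ K) '' F)
  rw [← h1] at h2
  have h3 : (Nat.card (Γ ⧸ K) : ℝ) = K.index := rfl
  have h4 : (Set.ncard ((QuotientGroup.mk : Γ → Γ ⧸ K) '' F) : ℝ) +
    Set.ncard ((QuotientGroup.mk : Γ → Γ ⧸ K) '' Fᶜ) = K.index := by
    rw [← h3, ← h2, Nat.cast_add]
  rw [h.card] at h4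
  linarith

theorem DensW.map {K : Subgroup Γ} {F : Set Γ} {r : ℝ} (h : DensW K F r) (φ : Γ →* Γ')
    (hφ : Function.Injective φ) (hr : φ.range.index ≠ 0) :
    DensW (K.map φ) (φ '' F) (r / φ.range.index) := by
  have hi : (K.map φ).index = K.index * φ.range.index := Subgroup.index_map_of_injective K hφ
  refine ⟨?_, ?_, ?_⟩
  · rw [hi]
    exact mul_ne_zero h.ind hr
  · rintro _ ⟨g, hg, rfl⟩ _ ⟨k, hk, rfl⟩
    exact ⟨g * k, h.per g hg k hk, map_mul _ _ _⟩
  · let f : Γ ⧸ K →* Γ' ⧸ (K.map φ) := QuotientGroup.map K (K.map φ) φ (Subgroup.le_comap_map _ _)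
    have hf : Function.Injective f := by
      rw [injective_iff_map_eq_one]
      intro q hq
      obtain ⟨g, rfl⟩ := QuotientGroup.mk_surjective q
      have h1 : f (QuotientGroup.mk g) = QuotientGroup.mk (φ g) := rfl
      rw [h1, QuotientGroup.eq_one_iff] at hq
      rw [QuotientGroup.eq_one_iff]
      obtain ⟨k, hk, hk'⟩ := hq
      rwa [← hφ hk']
    have h2 : (QuotientGroup.mk : Γ' → Γ' ⧸ (K.map φ)) '' (φ '' F) =
        f '' ((QuotientGroup.mk : Γ → Γ ⧸ K) '' F) := by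
      rw [Set.image_image, Set.image_image]
      rfl
    rw [h2, Set.ncard_image_of_injective _ hf, h.card, hi, Nat.cast_mul]
    have : (φ.range.index : ℝ) ≠ 0 := by exact_mod_cast hr
    field_simp

/-- `F` has density `r`. -/
def HasDens (F : Set Γ) (r : ℝ) : Prop := ∃ K : Subgroup Γ, DensW K F r

theorem HasDens.union {F F' : Set Γ} {r r' : ℝ} (h : HasDens F r) (h' : HasDens F' r')
    (hd : Disjoint F F') : HasDens (F ∪ F') (r + r') := by
  obtain ⟨K, h⟩ := h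
  obtain ⟨K', h'⟩ := h'
  have h1 : (K ⊓ K').index ≠ 0 := Subgroup.index_inf_ne_zero h.ind h'.ind
  exact ⟨K ⊓ K', (h.refine inf_le_left h1).union (h'.refine inf_le_right h1) hd⟩

theorem HasDens.compl {F : Set Γ} {r : ℝ} (h : HasDens F r) : HasDens Fᶜ (1 - r) := by
  obtain ⟨K, h⟩ := h
  exact ⟨K, h.compl⟩

theorem HasDens.map {F : Set Γ} {r : ℝ} (h : HasDens F r) (φ : Γ →* Γ')
    (hφ : Function.Injective φ) (hr : φ.range.index ≠ 0) :
    HasDens (φ '' F) (r / φ.range.index) := by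
  obtain ⟨K, h⟩ := h
  exact ⟨_, h.map φ hφ hr⟩

theorem HasDens.empty : HasDens (∅ : Set Γ) 0 :=
  ⟨⊤, by simp, by simp, by simp⟩

theorem HasDens.univ : HasDens (Set.univ : Set Γ) 1 := by
  have h := (HasDens.empty (Γ := Γ)).compl
  rwa [Set.compl_empty, sub_zero] at h

theorem HasDens.unique {F : Set Γ} {r r' : ℝ} (h : HasDens F r) (h' : HasDens F r') : r = r' := by
  obtain ⟨K, h⟩ := h
  obtain ⟨K', h'⟩ := h'
  have h1 : (K ⊓ K').index ≠ 0 := Subgroup.index_inf_ne_zero h.ind h'.ind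
  have h2 := (h.refine inf_le_left h1).card
  have h3 := (h'.refine inf_le_right h1).card
  rw [h2] at h3
  have h4 : ((K ⊓ K').index : ℝ) ≠ 0 := by exact_mod_cast h1
  exact mul_right_cancel₀ h4 h3

/-- The density of the set of elements whose images in a finite group have some property. -/
theorem HasDens.ratio {A : Type} [Group A] [Finite A] (ρ : Γ →* A) (P : A → Prop) {r : ℝ}
    (h : HasDens {g : Γ | P (ρ g)} r) :
    (Set.ncard {a : A | a ∈ ρ.range ∧ P a} : ℝ) / Set.ncard {a : A | a ∈ ρ.range} = r := by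
  have hi : ρ.ker.index ≠ 0 := by
    rw [Subgroup.index_ker]
    exact Nat.card_pos.ne'
  have hper : ∀ g ∈ {g : Γ | P (ρ g)}, ∀ k ∈ ρ.ker, g * k ∈ {g : Γ | P (ρ g)} := by
    intro g hg k hk
    show P (ρ (g * k))
    rw [map_mul, MonoidHom.mem_ker.1 hk, mul_one]
    exact hg
  have h1 : HasDens {g : Γ | P (ρ g)} ((Set.ncard ((QuotientGroup.mk : Γ → Γ ⧸ ρ.ker) ''
      {g : Γ | P (ρ g)}) : ℝ) / ρ.ker.index) := by
    refine ⟨ρ.ker, hi, hper, ?_⟩
    have : (ρ.ker.index : ℝ) ≠ 0 := by exact_mod_cast hi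
    field_simp
  rw [h.unique h1]
  have hinj := QuotientGroup.kerLift_injective ρ
  have h2 : {a : A | a ∈ ρ.range ∧ P a} = QuotientGroup.kerLift ρ ''
      ((QuotientGroup.mk : Γ → Γ ⧸ ρ.ker) '' {g : Γ | P (ρ g)}) := by
    ext a
    rw [Set.image_image]
    constructor
    · rintro ⟨⟨g, rfl⟩, hg⟩
      exact ⟨g, hg, rfl⟩
    · rintro ⟨g, hg, rfl⟩
      exact ⟨⟨g, rfl⟩, hg⟩
  have h3 : Set.ncard {a : A | a ∈ ρ.range} = ρ.ker.index := by
    rw [Subgroup.index_ker]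
    rfl
  rw [h3, h2, Set.ncard_image_of_injective _ hinj]

end Q21.Dens
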