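import Mathlib
import Pool.Agent.Q21.FPP.Dens

set_option autoImplicit false

/-! Actions of `ℤ²` on rooted trees with a prescribed fixed-point proportion. -/

namespace Q21.FPP

open Equiv Q21.Dens

/-- Rotation data on the alphabet. -/
structure Rot (p : ℕ) (X : Type) where
  res : X → ℤ
  rotl : X → ℤ → X
  res_nonneg : ∀ c, 0 ≤ res c
  res_lt : ∀ c, res c < p
  res_rotl : ∀ c z, res (rotl c z) = (res c + z) % p
  rotl_rotl : ∀ c z z', rotl (rotl c z) z' = rotl c (z + z')
  rotl_eq : ∀ c z, rotl c z = c ↔ (p : ℤ) ∣ z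
  surj : ∀ i : ℤ, 0 ≤ i → i < p → ∃ c, res c = i

/-- The states. -/
inductive Q
  | triv | rx | ry (c : ℤ) | rj (j : ℤ) (t : ℝ) | T (t : ℝ) | S (α : ℝ)

/-- The kinds of vertices. -/
inductive Node (X : Type)
  | split (f : X → Q)
  | rot (u v : ℤ) (q : Q)

/-- The first digit. -/
noncomputable def dg (p : ℕ) (t : ℝ) : ℤ := min ⌊(p : ℝ) * t⌋ (p - 1)

variable {p : ℕ} {X : Type}

open Classical in
/-- The kind of the vertex and the following states. -/
noncomputable def node (R : Rot p X) : Q → Node X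
  | .triv => .split fun _ => .triv
  | .rx => .rot 1 0 .triv
  | .ry c => .rot (-c) 1 .triv
  | .rj j t => .rot (-j) 1 (.T t)
  | .T t => .split fun c => if R.res c < dg p t then .ry (R.res c) else
      .rj (dg p t) ((p : ℝ) * t - dg p t)
  | .S α => if α < 1 / p then .rot 0 1 (.S ((p : ℝ) * α)) else
      .split fun c => if R.res c = 0 then .rx else .T (((p : ℝ) * α - 1) / ((p : ℝ) - 1))

/-- The action. -/
noncomputable def act (R : Rot p X) : List X → Q → ℤ → ℤ → List X
  | [], _, _, _ => []
  | c :: w, q, x, y => match node R q with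
    | .split f => c :: act R w (f c) x y
    | .rot u v q' => R.rotl c (u * x + v * y) ::
        act R w q' x ((R.res c + (u * x + v * y)) / p)

variable (R : Rot p X)

theorem act_nil (q : Q) (x y : ℤ) : act R [] q x y = [] := rfl

theorem act_split {q : Q} {f : X → Q} (h : node R q = .split f) (c : X) (w : List X) (x y : ℤ) :
    act R (c :: w) q x y = c :: act R w (f c) x y := by
  rw [act, h]

theorem act_rot {q q' : Q} {u v : ℤ} (h : node R q = .rot u v q') (c : X) (w : List X) (x y : ℤ) :
    act R (c :: w) q x y = R.rotl c (u * x + v * y) ::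
        act R w q' x ((R.res c + (u * x + v * y)) / p) := by
  rw [act, h]

theorem act_length (w : List X) : ∀ (q : Q) (x y : ℤ), (act R w q x y).length = w.length := by
  induction w with
  | nil => intro q x y; rfl
  | cons c w ih =>
    intro q x y
    cases h : node R q with
    | split f => rw [act_split R h, List.length_cons, List.length_cons, ih]
    | rot u v q' => rw [act_rot R h, List.length_cons, List.length_cons, ih]

theorem res_div (c : X) : R.res c / (p : ℤ) = 0 :=
  Int.ediv_eq_zero_of_lt (R.res_nonneg c) (R.res_lt c)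

theorem act_zero (w : List X) : ∀ (q : Q), act R w q 0 0 = w := by
  induction w with
  | nil => intro q; rfl
  | cons c w ih =>
    intro q
    cases h : node R q with
    | split f => rw [act_split R h, ih]
    | rot u v q' =>
      rw [act_rot R h]
      have h1 : u * 0 + v * 0 = (0 : ℤ) := by ring
      rw [h1, add_zero, res_div, ih, (R.rotl_eq c 0).2 (dvd_zero _)]

theorem act_add (w : List X) : ∀ (q : Q) (x y x' y' : ℤ),
    act R (act R w q x' y') q x y = act R w q (x + x') (y + y') := by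
  induction w with
  | nil => intro q x y x' y'; rfl
  | cons c w ih =>
    intro q x y x' y'
    cases h : node R q with
    | split f => rw [act_split R h, act_split R h, act_split R h, ih]
    | rot u v q' =>
      rw [act_rot R h, act_rot R h, act_rot R h, ih, R.rotl_rotl, R.res_rotl]
      have hp : (p : ℤ) ≠ 0 := by
        have h1 := R.res_nonneg c
        have h2 := R.res_lt c
        omega
      have e1 : u * x' + v * y' + (u * x + v * y) = u * (x + x') + v * (y + y') := by ring
      have e2 : ((R.res c + (u * x' + v * y')) % ↑p + (u * x + v * y)) / ↑p +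
          (R.res c + (u * x' + v * y')) / ↑p =
          (R.res c + (u * (x + x') + v * (y + y'))) / (p : ℤ) := by
        have h3 := Int.emod_add_mul_ediv (R.res c + (u * x' + v * y')) p
        have h4 : R.res c + (u * (x + x') + v * (y + y')) =
            ((R.res c + (u * x' + v * y')) % ↑p + (u * x + v * y)) +
              p * ((R.res c + (u * x' + v * y')) / ↑p) := by
          rw [← e1]
          linarith
        rw [h4, Int.add_mul_ediv_left _ _ hp]
      rw [e1, e2]

theorem act_prefix (w w' : List X) : ∀ (q : Q) (x y : ℤ), w <+: w' →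
    act R w q x y <+: act R w' q x y := by
  induction w generalizing w' with
  | nil => intro q x y _; exact List.nil_prefix
  | cons c w ih =>
    intro q x y hw
    cases w' with
    | nil => simp at hw
    | cons c' w' =>
      rw [List.cons_prefix_cons] at hw
      obtain ⟨rfl, hw⟩ := hw
      cases h : node R q with
      | split f =>
        rw [act_split R h, act_split R h, List.cons_prefix_cons]
        exact ⟨rfl, ih _ _ _ _ hw⟩
      | rot u v q' =>
        rw [act_rot R h, act_rot R h, List.cons_prefix_cons]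
        exact ⟨rfl, ih _ _ _ _ hw⟩

/-- The group. -/
abbrev Z2 : Type := Multiplicative (ℤ × ℤ)

/-- The action as a homomorphism. -/
noncomputable def Θ (q : Q) : Z2 →* Perm (List X) where
  toFun g :=
    { toFun := fun w => act R w q g.toAdd.1 g.toAdd.2
      invFun := fun w => act R w q (-g.toAdd.1) (-g.toAdd.2)
      left_inv := fun w => by
        show act R (act R w q g.toAdd.1 g.toAdd.2) q (-g.toAdd.1) (-g.toAdd.2) = w
        rw [act_add, neg_add_cancel, neg_add_cancel, act_zero]
      right_inv := fun w => by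
        show act R (act R w q (-g.toAdd.1) (-g.toAdd.2)) q g.toAdd.1 g.toAdd.2 = w
        rw [act_add, add_neg_cancel, add_neg_cancel, act_zero] }
  map_one' := by
    ext1 w
    exact act_zero R w q
  map_mul' g h := by
    ext1 w
    exact (act_add R w q g.toAdd.1 g.toAdd.2 h.toAdd.1 h.toAdd.2).symm

theorem Θ_apply (q : Q) (g : Z2) (w : List X) : Θ R q g w = act R w q g.toAdd.1 g.toAdd.2 := rfl

/-- The elements fixing a vertex of level `n`. -/
def F (n : ℕ) (q : Q) : Set Z2 := {g | ∃ w : List X, w.length = n ∧ Θ R q g w = w}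

theorem F_zero (q : Q) : F R 0 q = Set.univ := by
  ext g
  simp only [Set.mem_univ, iff_true]
  exact ⟨[], rfl, rfl⟩

theorem F_split {q : Q} {f : X → Q} (h : node R q = .split f) (n : ℕ) :
    F R (n + 1) q = ⋃ c, F R n (f c) := by
  ext g
  rw [Set.mem_iUnion]
  constructor
  · rintro ⟨w, hw, hg⟩
    cases w with
    | nil => simp at hw
    | cons c w =>
      rw [Θ_apply, act_split R h] at hg
      exact ⟨c, w, by simpa using hw, (List.cons.inj hg).2⟩
  · rintro ⟨c, w, hw, hg⟩
    refine ⟨c :: w, by simpa using hw, ?_⟩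
    rw [Θ_apply, act_split R h]
    exact congrArg (c :: ·) hg

theorem F_rot [Nonempty X] {q q' : Q} {u v : ℤ} (h : node R q = .rot u v q') (n : ℕ) :
    F R (n + 1) q = {g | (p : ℤ) ∣ u * g.toAdd.1 + v * g.toAdd.2 ∧
      Multiplicative.ofAdd (g.toAdd.1, (u * g.toAdd.1 + v * g.toAdd.2) / p) ∈ F R n q'} := by
  have key : ∀ (c : X) (z : ℤ), (p : ℤ) ∣ z → (R.res c + z) / p = z / p := by
    intro c z hz
    obtain ⟨k, rfl⟩ := hz
    have hp : (p : ℤ) ≠ 0 := by
      have h1 := R.res_nonneg c
      have h2 := R.res_lt c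
      omega
    rw [Int.add_mul_ediv_left _ _ hp, res_div, zero_add, Int.mul_ediv_cancel_left _ hp]
  ext g
  constructor
  · rintro ⟨w, hw, hg⟩
    cases w with
    | nil => simp at hw
    | cons c w =>
      rw [Θ_apply, act_rot R h] at hg
      obtain ⟨h1, h2⟩ := List.cons.inj hg
      rw [R.rotl_eq] at h1
      rw [key c _ h1] at h2
      exact ⟨h1, w, by simpa using hw, h2⟩
  · rintro ⟨h1, w, hw, h2⟩
    obtain ⟨c⟩ : Nonempty X := inferInstance
    refine ⟨c :: w, by simpa using hw, ?_⟩
    rw [Θ_apply, act_rot R h, key c _ h1, (R.rotl_eq _ _).2 h1]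
    exact congrArg (c :: ·) h2

theorem F_triv [Nonempty X] (n : ℕ) : F R n .triv = Set.univ := by
  induction n with
  | zero => exact F_zero R _
  | succ n ih =>
    rw [F_split R (f := fun _ => .triv) rfl, ih, Set.iUnion_const]

/-- The maps `(x, y) ↦ (x, p y + m x)`. -/
def φ (p : ℕ) (m : ℤ) : Z2 →* Z2 where
  toFun g := Multiplicative.ofAdd (g.toAdd.1, p * g.toAdd.2 + m * g.toAdd.1)
  map_one' := by
    apply Multiplicative.toAdd.injective
    show ((0 : ℤ), (p : ℤ) * 0 + m * 0) = (0, 0)
    simp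
  map_mul' g h := by
    apply Multiplicative.toAdd.injective
    show (g.toAdd.1 + h.toAdd.1, (p : ℤ) * (g.toAdd.2 + h.toAdd.2) + m * (g.toAdd.1 + h.toAdd.1)) =
      (g.toAdd.1 + h.toAdd.1, (p * g.toAdd.2 + m * g.toAdd.1) + (p * h.toAdd.2 + m * h.toAdd.1))
    congr 1
    ring

theorem φ_apply (m : ℤ) (g : Z2) :
    (φ p m g) = Multiplicative.ofAdd (g.toAdd.1, p * g.toAdd.2 + m * g.toAdd.1) := rfl

theorem φ_injective (hp : p ≠ 0) (m : ℤ) : Function.Injective (φ p m) := by
  intro g h hgh
  have h1 : (g.toAdd.1, p * g.toAdd.2 + m * g.toAdd.1) =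
    (h.toAdd.1, p * h.toAdd.2 + m * h.toAdd.1) := congrArg Multiplicative.toAdd hgh
  obtain ⟨h2, h3⟩ := Prod.mk.inj h1
  rw [h2] at h3
  have hp' : (p : ℤ) ≠ 0 := by exact_mod_cast hp
  have h4 := mul_left_cancel₀ hp' (add_right_cancel h3)
  exact Multiplicative.toAdd.injective (Prod.ext h2 h4)

/-- The characters `(x, y) ↦ a x + b y` modulo `p`. -/
def χ (p : ℕ) (a b : ℤ) : Z2 →* Multiplicative (ZMod p) where
  toFun g := Multiplicative.ofAdd ((a * g.toAdd.1 + b * g.toAdd.2 : ℤ) : ZMod p)
  map_one' := by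
    show Multiplicative.ofAdd ((a * 0 + b * 0 : ℤ) : ZMod p) = 1
    simp
  map_mul' g h := by
    show Multiplicative.ofAdd ((a * (g.toAdd.1 + h.toAdd.1) + b * (g.toAdd.2 + h.toAdd.2) : ℤ) :
      ZMod p) = Multiplicative.ofAdd (((a * g.toAdd.1 + b * g.toAdd.2 : ℤ) : ZMod p) +
        ((a * h.toAdd.1 + b * h.toAdd.2 : ℤ) : ZMod p))
    congr 1
    push_cast
    ring

theorem mem_ker_χ (a b : ℤ) (g : Z2) :
    g ∈ (χ p a b).ker ↔ (p : ℤ) ∣ a * g.toAdd.1 + b * g.toAdd.2 := by
  rw [MonoidHom.mem_ker, ← ZMod.intCast_zmod_eq_zero_iff_dvd]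
  exact Iff.rfl

theorem index_ker_χ [NeZero p] (a b : ℤ) (x y : ℤ) (h : a * x + b * y = 1) :
    (χ p a b).ker.index = p := by
  have hs : Function.Surjective (χ p a b) := by
    intro z
    refine ⟨Multiplicative.ofAdd ((ZMod.val z.toAdd : ℤ) * x, (ZMod.val z.toAdd : ℤ) * y), ?_⟩
    show Multiplicative.ofAdd ((a * ((ZMod.val z.toAdd : ℤ) * x) +
      b * ((ZMod.val z.toAdd : ℤ) * y) : ℤ) : ZMod p) = z
    have h1 : a * ((ZMod.val z.toAdd : ℤ) * x) + b * ((ZMod.val z.toAdd : ℤ) * y) =
        (ZMod.val z.toAdd : ℤ) := by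
      calc _ = (ZMod.val z.toAdd : ℤ) * (a * x + b * y) := by ring
        _ = _ := by rw [h, mul_one]
    rw [h1]
    simp
  rw [Subgroup.index_ker, MonoidHom.range_eq_top.2 hs]
  simp

theorem range_φ [NeZero p] (m : ℤ) : (φ p m).range = (χ p (-m) 1).ker := by
  ext g
  rw [mem_ker_χ]
  constructor
  · rintro ⟨h, rfl⟩
    rw [φ_apply]
    show (p : ℤ) ∣ -m * h.toAdd.1 + 1 * (p * h.toAdd.2 + m * h.toAdd.1)
    exact ⟨h.toAdd.2, by ring⟩
  · rintro ⟨k, hk⟩
    refine ⟨Multiplicative.ofAdd (g.toAdd.1, k), ?_⟩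
    rw [φ_apply]
    apply Multiplicative.toAdd.injective
    refine Prod.ext rfl ?_
    show p * k + m * g.toAdd.1 = g.toAdd.2
    linarith

theorem index_φ [NeZero p] (m : ℤ) : (φ p m).range.index = p := by
  rw [range_φ, index_ker_χ (-m) 1 0 1 (by ring)]

/-- The set where a rotating vertex is fixed. -/
theorem F_rot' [NeZero p] [Nonempty X] {q q' : Q} {u : ℤ} (h : node R q = .rot u 1 q') (n : ℕ) :
    F R (n + 1) q = φ p (-u) '' F R n q' := by
  have hp : (p : ℤ) ≠ 0 := by exact_mod_cast NeZero.ne p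
  rw [F_rot R h]
  ext g
  constructor
  · rintro ⟨h1, h2⟩
    refine ⟨_, h2, ?_⟩
    rw [φ_apply]
    apply Multiplicative.toAdd.injective
    refine Prod.ext rfl ?_
    show p * ((u * g.toAdd.1 + 1 * g.toAdd.2) / p) + -u * g.toAdd.1 = g.toAdd.2
    rw [Int.mul_ediv_cancel' h1]
    ring
  · rintro ⟨g', hg', rfl⟩
    have e : u * g'.toAdd.1 + 1 * (p * g'.toAdd.2 + -u * g'.toAdd.1) = p * g'.toAdd.2 := by ring
    refine ⟨?_, ?_⟩
    · show (p : ℤ) ∣ u * g'.toAdd.1 + 1 * (p * g'.toAdd.2 + -u * g'.toAdd.1)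
      rw [e]
      exact dvd_mul_right _ _
    · show Multiplicative.ofAdd (g'.toAdd.1,
        (u * g'.toAdd.1 + 1 * (p * g'.toAdd.2 + -u * g'.toAdd.1)) / p) ∈ _
      rw [e, Int.mul_ediv_cancel_left _ hp]
      exact hg'

end Q21.FPP
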