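import Mathlib
import Pool.Agent.Q21.FPP.Auto

set_option autoImplicit false

/-! The densities of the sets of elements with a fixed vertex. -/

namespace Q21.FPP

open Equiv Q21.Dens

theorem HasDens.subgroup {Γ : Type} [CommGroup Γ] (H : Subgroup Γ) (h : H.index ≠ 0) :
    HasDens (H : Set Γ) (1 / H.index) := by
  refine ⟨H, h, fun g hg k hk => H.mul_mem hg hk, ?_⟩
  have h1 : (QuotientGroup.mk : Γ → Γ ⧸ H) '' (H : Set Γ) = {1} := by
    ext q
    constructor
    · rintro ⟨g, hg, rfl⟩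
      exact (QuotientGroup.eq_one_iff g).2 hg
    · rintro rfl
      exact ⟨1, H.one_mem, rfl⟩
  have h2 : (H.index : ℝ) ≠ 0 := by exact_mod_cast h
  rw [h1, Set.ncard_singleton]
  field_simp
  norm_num

variable {p : ℕ} [hp : Fact p.Prime] {X : Type}

/-- The pairs `(x, y)` with `x` prime to `p`. -/
def U (p : ℕ) : Set Z2 := {g | ¬ (p : ℤ) ∣ g.toAdd.1}

theorem dens_U_compl : HasDens (U p)ᶜ (1 / p : ℝ) := by
  have h1 : (χ p 1 0).ker.index = p := index_ker_χ 1 0 1 0 (by ring)
  have h2 := HasDens.subgroup (χ p 1 0).ker (by rw [h1]; exact hp.out.ne_zero)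
  rw [h1] at h2
  convert h2 using 1
  ext g
  show ¬ ¬ (p : ℤ) ∣ g.toAdd.1 ↔ g ∈ (χ p 1 0).ker
  rw [mem_ker_χ, not_not, one_mul, zero_mul, add_zero]

theorem dens_U : HasDens (U p) (1 - 1 / p : ℝ) := by
  have h := (dens_U_compl (p := p)).compl
  rwa [compl_compl] at h

theorem map_φ {A : Set Z2} {r : ℝ} (h : HasDens A r) (m : ℤ) :
    HasDens (φ p m '' A) (r / p) := by
  have h1 := h.map (φ p m) (φ_injective hp.out.ne_zero m)
    (by rw [index_φ]; exact hp.out.ne_zero)
  rwa [index_φ] at h1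

omit hp in
theorem mem_φ {A : Set Z2} {m : ℤ} {g : Z2} (h : g ∈ φ p m '' A) :
    (p : ℤ) ∣ g.toAdd.2 - m * g.toAdd.1 := by
  obtain ⟨g', -, rfl⟩ := h
  show (p : ℤ) ∣ (p * g'.toAdd.2 + m * g'.toAdd.1) - m * g'.toAdd.1
  exact ⟨g'.toAdd.2, by ring⟩

theorem uniq {g : Z2} (hg : g ∈ U p) {m m' : ℤ} (hm : 0 ≤ m) (hmp : m < p) (hm' : 0 ≤ m')
    (hmp' : m' < p) (h : (p : ℤ) ∣ g.toAdd.2 - m * g.toAdd.1)
    (h' : (p : ℤ) ∣ g.toAdd.2 - m' * g.toAdd.1) : m = m' := by
  have h1 : (p : ℤ) ∣ (m - m') * g.toAdd.1 := by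
    have e : (m - m') * g.toAdd.1 =
        (g.toAdd.2 - m' * g.toAdd.1) - (g.toAdd.2 - m * g.toAdd.1) := by ring
    rw [e]
    exact dvd_sub h' h
  rcases (Nat.prime_iff_prime_int.1 hp.out).dvd_or_dvd h1 with h2 | h2
  · obtain ⟨k, hk⟩ := h2
    have h3 : k = 0 := by
      by_contra hk0
      rcases lt_or_gt_of_ne hk0 with h | h
      · have : (p : ℤ) * k ≤ -p := by nlinarith
        omega
      · have : (p : ℤ) * k ≥ p := by nlinarith
        omega
    rw [h3] at hk
    omega
  · exact absurd h2 hg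

/-- The first `j` slopes. -/
theorem dens_slopes (j : ℕ) (hj : j ≤ p) :
    HasDens {g : Z2 | g ∈ U p ∧ ∃ c : ℤ, 0 ≤ c ∧ c < j ∧ (p : ℤ) ∣ g.toAdd.2 - c * g.toAdd.1}
      (j * ((1 - 1 / p : ℝ) / p)) := by
  induction j with
  | zero =>
    convert HasDens.empty (Γ := Z2) using 1
    · ext g
      constructor
      · rintro ⟨-, c, h1, h2, -⟩
        exfalso
        push_cast at h2
        omega
      · rintro ⟨⟩
    · simp
  | succ j ih =>
    have h1 := (ih (by omega)).union (map_φ (p := p) (dens_U (p := p)) (j : ℤ)) (by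
      rw [Set.disjoint_left]
      rintro g ⟨hg, c, hc, hcj, hcd⟩ hg'
      have := uniq hg hc (by omega) (Int.natCast_nonneg j) (by omega) hcd (mem_φ hg')
      omega)
    convert h1 using 1
    · ext g
      constructor
      · rintro ⟨hg, c, hc, hcj, hcd⟩
        by_cases h : c < j
        · exact Or.inl ⟨hg, c, hc, h, hcd⟩
        · right
          have hcj' : c = j := by
            push_cast at hcj
            omega
          subst hcj'
          obtain ⟨k, hk⟩ := hcd
          refine ⟨Multiplicative.ofAdd (g.toAdd.1, k), hg, ?_⟩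
          rw [φ_apply]
          apply Multiplicative.toAdd.injective
          refine Prod.ext rfl ?_
          show p * k + j * g.toAdd.1 = g.toAdd.2
          linarith
      · rintro (⟨hg, c, hc, hcj, hcd⟩ | hg)
        · exact ⟨hg, c, hc, by push_cast; omega, hcd⟩
        · have h2 := mem_φ hg
          obtain ⟨g', hg', rfl⟩ := hg
          exact ⟨hg', j, Int.natCast_nonneg j, by push_cast; omega, h2⟩
    · push_cast
      ring

theorem dg_nonneg {t : ℝ} (ht : 0 ≤ t) : 0 ≤ dg p t := by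
  refine le_min (Int.floor_nonneg.2 (by positivity)) ?_
  have := hp.out.one_lt
  omega

omit hp in
theorem dg_lt (t : ℝ) : dg p t < p := by
  have : dg p t ≤ p - 1 := min_le_right _ _
  omega

theorem dg_frac {t : ℝ} (ht1 : t ≤ 1) :
    0 ≤ (p : ℝ) * t - dg p t ∧ (p : ℝ) * t - dg p t ≤ 1 := by
  have hp0 : (0 : ℝ) < p := by exact_mod_cast hp.out.pos
  constructor
  · have h1 : (dg p t : ℝ) ≤ ⌊(p : ℝ) * t⌋ := by exact_mod_cast min_le_left _ _
    have h2 := Int.floor_le ((p : ℝ) * t)
    linarith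
  · rcases le_total ⌊(p : ℝ) * t⌋ (p - 1 : ℤ) with h | h
    · rw [dg, min_eq_left h]
      have := (Int.lt_floor_add_one ((p : ℝ) * t)).le
      linarith
    · rw [dg, min_eq_right h]
      push_cast
      nlinarith

variable (R : Rot p X) [Nonempty X]

/-- The recursion for the state `T t`. -/
theorem F_T (t : ℝ) (ht : 0 ≤ t) (n : ℕ) :
    F R (n + 2) (.T t) ∩ U p = {g : Z2 | g ∈ U p ∧ ∃ c : ℤ, 0 ≤ c ∧ c < dg p t ∧
      (p : ℤ) ∣ g.toAdd.2 - c * g.toAdd.1} ∪
      φ p (dg p t) '' (F R n (.T ((p : ℝ) * t - dg p t)) ∩ U p) := by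
  have h0 := dg_nonneg (p := p) ht
  have h1 := dg_lt (p := p) t
  rw [F_split R (f := fun c => if R.res c < dg p t then .ry (R.res c) else
      .rj (dg p t) ((p : ℝ) * t - dg p t)) rfl]
  have hry : ∀ c, F R (n + 1) (.ry c) = φ p (- -c) '' Set.univ := by
    intro c
    rw [F_rot' R (q := .ry c) (q' := .triv) (u := -c) rfl, F_triv]
  have hrj : F R (n + 1) (.rj (dg p t) ((p : ℝ) * t - dg p t)) =
      φ p (- -dg p t) '' (F R n (.T ((p : ℝ) * t - dg p t))) :=
    F_rot' R rfl n
  ext g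
  constructor
  · rintro ⟨hg, hU⟩
    rw [Set.mem_iUnion] at hg
    obtain ⟨c, hc⟩ := hg
    by_cases h : R.res c < dg p t
    · rw [if_pos h, hry, neg_neg] at hc
      exact Or.inl ⟨hU, R.res c, R.res_nonneg c, h, mem_φ hc⟩
    · rw [if_neg h, hrj, neg_neg] at hc
      obtain ⟨g', hg', rfl⟩ := hc
      exact Or.inr ⟨g', ⟨hg', hU⟩, rfl⟩
  · rintro (⟨hU, c, hc, hcj, hcd⟩ | ⟨g', ⟨hg', hU⟩, rfl⟩)
    · refine ⟨?_, hU⟩
      rw [Set.mem_iUnion]
      obtain ⟨a, ha⟩ := R.surj c hc (by omega)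
      refine ⟨a, ?_⟩
      rw [ha, if_pos hcj, hry, neg_neg]
      obtain ⟨k, hk⟩ := hcd
      refine ⟨Multiplicative.ofAdd (g.toAdd.1, k), Set.mem_univ _, ?_⟩
      rw [φ_apply]
      apply Multiplicative.toAdd.injective
      refine Prod.ext rfl ?_
      show p * k + c * g.toAdd.1 = g.toAdd.2
      linarith
    · refine ⟨?_, hU⟩
      rw [Set.mem_iUnion]
      obtain ⟨a, ha⟩ := R.surj (dg p t) h0 h1
      refine ⟨a, ?_⟩
      rw [ha, if_neg (lt_irrefl _), hrj, neg_neg]
      exact ⟨g', hg', rfl⟩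

theorem pow_le {k : ℕ} : (1 / p : ℝ) ^ k ≤ 1 := by
  have hp1 : (1 : ℝ) ≤ p := by exact_mod_cast hp.out.one_lt.le
  apply pow_le_one₀ (by positivity)
  rw [div_le_one (by linarith)]
  exact hp1

theorem dens_T (n : ℕ) : ∀ t : ℝ, 0 ≤ t → t ≤ 1 → ∃ r : ℝ, HasDens (F R n (.T t) ∩ U p) r ∧
    |r - (1 - 1 / p) * t| ≤ (1 / p : ℝ) ^ (n / 2) := by
  have hp0 : (0 : ℝ) < p := by exact_mod_cast hp.out.pos
  have hp1 : (1 : ℝ) ≤ p := by exact_mod_cast hp.out.one_lt.le
  have hq0 : (0 : ℝ) ≤ 1 / p := by positivity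
  have hq : (1 / p : ℝ) ≤ 1 := by
    rw [div_le_one hp0]
    exact hp1
  have base : ∀ t : ℝ, 0 ≤ t → t ≤ 1 → |(1 - 1 / p) - (1 - 1 / p) * t| ≤ (1 : ℝ) := by
    intro t ht ht1
    rw [abs_le]
    constructor <;> nlinarith
  induction n using Nat.strong_induction_on with
  | _ n ih =>
    intro t ht ht1
    match n with
    | 0 =>
      refine ⟨1 - 1 / p, ?_, by simpa using base t ht ht1⟩
      rw [F_zero, Set.univ_inter]
      exact dens_U
    | 1 =>
      refine ⟨1 - 1 / p, ?_, by simpa using base t ht ht1⟩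
      rw [F_split R (f := fun c => if R.res c < dg p t then .ry (R.res c) else
        .rj (dg p t) ((p : ℝ) * t - dg p t)) rfl]
      simp only [F_zero, Set.iUnion_const, Set.univ_inter]
      exact dens_U
    | (n + 2) =>
      obtain ⟨h0, h1⟩ := dg_frac (p := p) ht1
      obtain ⟨r, hr, hr'⟩ := ih n (by omega) _ h0 h1
      obtain ⟨j, hj⟩ := Int.eq_ofNat_of_zero_le (dg_nonneg (p := p) ht)
      have hjp := dg_lt (p := p) t
      rw [hj] at hr hr' hjp
      have hj' : (j : ℤ) < p := hjp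
      have h2 := (dens_slopes (p := p) j (by omega)).union (map_φ (p := p) hr (j : ℤ)) (by
        rw [Set.disjoint_left]
        rintro g ⟨hg, c, hc, hcj, hcd⟩ hg'
        have := uniq hg hc (by omega) (Int.natCast_nonneg j) (by omega) hcd (mem_φ hg')
        omega)
      refine ⟨j * ((1 - 1 / p : ℝ) / p) + r / p, ?_, ?_⟩
      · rw [F_T R t ht, hj]
        exact h2
      · have h3 : (n + 2) / 2 = n / 2 + 1 := by omega
        rw [h3, pow_succ]
        have h4 : (j * ((1 - 1 / p : ℝ) / p) + r / p) - (1 - 1 / p) * t =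
            (r - (1 - 1 / p) * ((p : ℝ) * t - (j : ℤ))) * (1 / p) := by
          push_cast
          field_simp
          ring
        rw [h4, abs_mul, abs_of_nonneg hq0]
        exact mul_le_mul_of_nonneg_right hr' hq0

omit hp in
theorem F_rx (n : ℕ) : F R (n + 1) .rx = (U p)ᶜ := by
  rw [F_rot R (q := .rx) (q' := .triv) (u := 1) (v := 0) rfl, F_triv]
  ext g
  show ((p : ℤ) ∣ 1 * g.toAdd.1 + 0 * g.toAdd.2 ∧ _) ↔ ¬ ¬ (p : ℤ) ∣ g.toAdd.1
  rw [not_not, one_mul, zero_mul, add_zero]
  exact and_iff_left (Set.mem_univ _)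

theorem dens_S (n : ℕ) : ∀ α : ℝ, 0 ≤ α → α ≤ 1 → ∃ r : ℝ, HasDens (F R (n + 1) (.S α)) r ∧
    |r - α| ≤ (1 / p : ℝ) ^ (n / 2) := by
  classical
  have hp0 : (0 : ℝ) < p := by exact_mod_cast hp.out.pos
  have hp1 : (1 : ℝ) < p := by exact_mod_cast hp.out.one_lt
  have hq0 : (0 : ℝ) ≤ 1 / p := by positivity
  have hq : (1 / p : ℝ) ≤ 1 := by
    rw [div_le_one hp0]
    exact hp1.le
  induction n with
  | zero =>
    intro α hα hα1
    by_cases h : α < 1 / p
    · refine ⟨1 / p, ?_, ?_⟩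
      · have h1 : node R (.S α) = .rot 0 1 (.S ((p : ℝ) * α)) := by
          rw [node, if_pos h]
        rw [F_rot' R h1, F_zero]
        exact map_φ HasDens.univ _
      · rw [Nat.zero_div, pow_zero, abs_le]
        constructor <;> linarith
    · refine ⟨1, ?_, ?_⟩
      · have h1 : node R (.S α) = .split fun c => if R.res c = 0 then .rx else
            .T (((p : ℝ) * α - 1) / ((p : ℝ) - 1)) := by
          rw [node, if_neg h]
        rw [F_split R h1]
        simp only [F_zero, Set.iUnion_const]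
        exact HasDens.univ
      · rw [Nat.zero_div, pow_zero, abs_le]
        constructor <;> linarith
  | succ n ih =>
    intro α hα hα1
    by_cases h : α < 1 / p
    · have h1 : node R (.S α) = .rot 0 1 (.S ((p : ℝ) * α)) := by
        rw [node, if_pos h]
      have h2 : (p : ℝ) * α ≤ 1 := by
        have := mul_lt_mul_of_pos_left h hp0
        rw [mul_one_div_cancel hp0.ne'] at this
        exact this.le
      obtain ⟨r, hr, hr'⟩ := ih ((p : ℝ) * α) (by positivity) h2
      refine ⟨r / p, ?_, ?_⟩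
      · rw [F_rot' R h1]
        exact map_φ hr _
      · have h3 : r / p - α = (r - p * α) * (1 / p) := by
          field_simp
        rw [h3, abs_mul, abs_of_nonneg hq0]
        have h4 : (1 / p : ℝ) ^ (n / 2) * (1 / p) ≤ (1 / p : ℝ) ^ ((n + 1) / 2) := by
          rw [← pow_succ]
          exact pow_le_pow_of_le_one hq0 hq (by omega)
        exact (mul_le_mul_of_nonneg_right hr' hq0).trans h4
    · have h1 : node R (.S α) = .split fun c => if R.res c = 0 then .rx else
          .T (((p : ℝ) * α - 1) / ((p : ℝ) - 1)) := by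
        rw [node, if_neg h]
      push Not at h
      have h2 : (1 : ℝ) ≤ p * α := by
        have := mul_le_mul_of_nonneg_left h hp0.le
        rwa [mul_one_div_cancel hp0.ne'] at this
      set t : ℝ := ((p : ℝ) * α - 1) / ((p : ℝ) - 1) with ht
      have ht0 : 0 ≤ t := div_nonneg (by linarith) (by linarith)
      have ht1 : t ≤ 1 := by
        rw [ht, div_le_one (by linarith)]
        nlinarith
      obtain ⟨r, hr, hr'⟩ := dens_T R (n + 1) t ht0 ht1
      refine ⟨1 / p + r, ?_, ?_⟩
      · have h3 : F R (n + 1 + 1) (.S α) = (U p)ᶜ ∪ (F R (n + 1) (.T t) ∩ U p) := by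
          rw [F_split R h1]
          ext g
          rw [Set.mem_iUnion]
          constructor
          · rintro ⟨c, hc⟩
            by_cases hU : g ∈ U p
            · by_cases hc0 : R.res c = 0
              · rw [if_pos hc0, F_rx] at hc
                exact absurd hU hc
              · rw [if_neg hc0] at hc
                exact Or.inr ⟨hc, hU⟩
            · exact Or.inl hU
          · rintro (hg | ⟨hg, -⟩)
            · obtain ⟨c, hc⟩ := R.surj 0 le_rfl (by exact_mod_cast hp.out.pos)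
              exact ⟨c, by rw [if_pos hc, F_rx]; exact hg⟩
            · obtain ⟨c, hc⟩ := R.surj 1 (by norm_num) (by exact_mod_cast hp.out.one_lt)
              refine ⟨c, ?_⟩
              rw [if_neg (by omega)]
              exact hg
        rw [h3]
        refine (dens_U_compl (p := p)).union hr ?_
        rw [Set.disjoint_left]
        rintro g hg ⟨-, hg'⟩
        exact hg hg'
      · have h3 : 1 / p + r - α = r - (1 - 1 / p) * t := by
          rw [ht]
          have : (p : ℝ) - 1 ≠ 0 := by linarith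
          field_simp
          ring
        rw [h3]
        exact hr'

end Q21.FPP
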